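import Pool.Agent.Helper35.SHQ.Sheet

/-!
SHQ, row PEN: pending words (from SHF).
-/

namespace SHQ

theorem st_PEN (h : ST_SHF) : ST_PEN := by
  obtain ⟨hsymm, happ, hnil, hlen⟩ := h
  refine ⟨?_, ?_, ?_, ?_, ?_⟩
  · rintro x1 a d t x2 h1 ⟨v, hv⟩
    refine ⟨d ++ v, ?_⟩
    have h2 := happ _ _ _ _ _ _ (hsymm _ _ _ h1) hv
    have e : a ++ t ++ (d ++ v) = a ++ (t ++ d ++ v) := by simp [List.append_assoc]
    rw [e]
    exact h2
  · intro u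
    refine ⟨[], ?_⟩
    rw [List.append_nil]
    exact hsymm _ _ _ (hnil u)
  · rintro u x ⟨v, hv⟩
    have h2 := happ u u [] x v (u ++ v) (hnil u) hv
    rw [List.nil_append] at h2
    exact ⟨u ++ v, h2⟩
  · rintro s ⟨v, hv⟩
    exact ⟨v.length, by rw [hlen _ _ _ hv]; ring⟩
  · rintro s s' ⟨v, hv⟩ ⟨v', hv'⟩
    exact ⟨v ++ v', happ _ _ _ _ _ _ hv hv'⟩

end SHQ
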